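import Pool.Agent.Helper85.MU.Stmts

/-!
# MU: automorphisms of a field acting on the primes of the ring of algebraic integers
-/

set_option autoImplicit false
set_option maxHeartbeats 800000

open NumberField

namespace MU

section

variable {Ω k : Type} [Field Ω] [Field k] [Algebra k Ω]

/-- automorphisms preserve algebraic integers -/
theorem b3_int (σ : Ω ≃ₐ[k] Ω) (x : integralClosure ℤ Ω) :
    σ (x : Ω) ∈ integralClosure ℤ Ω :=
  map_isIntegral_int (σ : Ω →+* Ω) x.2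

/-- the action on algebraic integers -/
noncomputable def sm (σ : Ω ≃ₐ[k] Ω) : integralClosure ℤ Ω →+* integralClosure ℤ Ω where
  toFun x := ⟨σ (x : Ω), b3_int σ x⟩
  map_one' := by
    apply Subtype.ext
    simp
  map_mul' a b := by
    apply Subtype.ext
    simp
  map_zero' := by
    apply Subtype.ext
    simp
  map_add' a b := by
    apply Subtype.ext
    simp

theorem sm_coe (σ : Ω ≃ₐ[k] Ω) (x : integralClosure ℤ Ω) :
    ((sm σ x : integralClosure ℤ Ω) : Ω) = σ (x : Ω) := rfl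

theorem sm_mul (σ τ : Ω ≃ₐ[k] Ω) (x : integralClosure ℤ Ω) : sm (σ * τ) x = sm σ (sm τ x) := by
  apply Subtype.ext
  rfl

theorem sm_one (x : integralClosure ℤ Ω) : sm (1 : Ω ≃ₐ[k] Ω) x = x := by
  apply Subtype.ext
  rfl

theorem sm_inv (σ : Ω ≃ₐ[k] Ω) (x : integralClosure ℤ Ω) : sm σ (sm σ⁻¹ x) = x := by
  rw [← sm_mul, mul_inv_cancel, sm_one]

theorem sm_inv' (σ : Ω ≃ₐ[k] Ω) (x : integralClosure ℤ Ω) : sm σ⁻¹ (sm σ x) = x := by
  rw [← sm_mul, inv_mul_cancel, sm_one]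

/-- `CongPow` for automorphisms -/
abbrev CP (𝔓 : Ideal (integralClosure ℤ Ω)) (q : ℕ) (σ : Ω ≃ₐ[k] Ω) : Prop :=
  CongPow 𝔓 q (fun x => σ x)

theorem congPow_iff (𝔓 : Ideal (integralClosure ℤ Ω)) (q : ℕ) (σ : Ω ≃ₐ[k] Ω) :
    CP 𝔓 q σ ↔ ∀ x : integralClosure ℤ Ω, sm σ x - x ^ q ∈ 𝔓 := by
  constructor
  · intro h x
    exact h x (sm σ x) rfl
  · intro h x y hy
    have : y = sm σ x := Subtype.ext hy
    rw [this]
    exact h x

/-- the translate `σ⁻¹ 𝔓` -/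
noncomputable def tp (σ : Ω ≃ₐ[k] Ω) (𝔓 : Ideal (integralClosure ℤ Ω)) :
    Ideal (integralClosure ℤ Ω) := 𝔓.comap (sm σ)

theorem mem_tp (σ : Ω ≃ₐ[k] Ω) (𝔓 : Ideal (integralClosure ℤ Ω)) (x : integralClosure ℤ Ω) :
    x ∈ tp σ 𝔓 ↔ sm σ x ∈ 𝔓 := Iff.rfl

theorem tp_tp (σ τ : Ω ≃ₐ[k] Ω) (𝔓 : Ideal (integralClosure ℤ Ω)) :
    tp τ (tp σ 𝔓) = tp (σ * τ) 𝔓 := by
  ext x
  rw [mem_tp, mem_tp, mem_tp, sm_mul]

theorem tp_over (σ : Ω ≃ₐ[k] Ω) (𝔓 : Ideal (integralClosure ℤ Ω)) (p : ℕ) (h : Over p 𝔓) :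
    Over p (tp σ 𝔓) := by
  refine ⟨?_, ?_⟩
  · have := h.1
    exact Ideal.comap_isPrime _ _
  · rw [mem_tp, map_natCast]
    exact h.2

theorem congPow_mul (𝔓 : Ideal (integralClosure ℤ Ω)) (q q' : ℕ) (σ τ : Ω ≃ₐ[k] Ω)
    (h : CP 𝔓 q σ) (h' : CP 𝔓 q' τ) : CP 𝔓 (q' * q) (σ * τ) := by
  rw [congPow_iff] at *
  intro x
  have h1 := h (sm τ x)
  have h2 : (sm τ x) ^ q - (x ^ q') ^ q ∈ 𝔓 :=
    Ideal.mem_of_dvd 𝔓 (sub_dvd_pow_sub_pow (sm τ x) (x ^ q') q) (h' x)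
  have h3 := 𝔓.add_mem h1 h2
  rw [sm_mul]
  rw [sub_add_sub_cancel, ← pow_mul] at h3
  exact h3

theorem congPow_one (𝔓 : Ideal (integralClosure ℤ Ω)) : CP 𝔓 1 (1 : Ω ≃ₐ[k] Ω) := by
  rw [congPow_iff]
  intro x
  rw [sm_one, pow_one, sub_self]
  exact 𝔓.zero_mem

theorem congPow_pow (𝔓 : Ideal (integralClosure ℤ Ω)) (q : ℕ) (σ : Ω ≃ₐ[k] Ω)
    (h : CP 𝔓 q σ) (j : ℕ) : CP 𝔓 (q ^ j) (σ ^ j) := by
  induction j with
  | zero =>
      rw [pow_zero, pow_zero]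
      exact congPow_one 𝔓
  | succ j ih =>
      rw [pow_succ, pow_succ]
      have := congPow_mul 𝔓 (q ^ j) q (σ ^ j) σ ih h
      rw [mul_comm (q ^ j) q]
      exact this

/-- conjugation -/
theorem congPow_conj (𝔓 : Ideal (integralClosure ℤ Ω)) (q : ℕ) (σ g : Ω ≃ₐ[k] Ω)
    (h : CP 𝔓 q σ) : CP (tp g 𝔓) q (g⁻¹ * σ * g) := by
  rw [congPow_iff] at *
  intro x
  rw [mem_tp, map_sub, map_pow, sm_mul, sm_mul, sm_inv]
  exact h (sm g x)

/-- elements with `σ x ≡ x` preserve the prime -/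
theorem tp_inertia (𝔓 : Ideal (integralClosure ℤ Ω)) (σ : Ω ≃ₐ[k] Ω) (h : CP 𝔓 1 σ) :
    tp σ 𝔓 = 𝔓 := by
  rw [congPow_iff] at h
  ext x
  rw [mem_tp]
  have := h x
  rw [pow_one] at this
  constructor
  · intro h1
    have h2 := 𝔓.sub_mem h1 this
    rw [sub_sub_cancel] at h2
    exact h2
  · intro h1
    have h2 := 𝔓.add_mem this h1
    rw [sub_add_cancel] at h2
    exact h2

/-- the inverse of an inertia element -/
theorem congPow_inv (𝔓 : Ideal (integralClosure ℤ Ω)) (σ : Ω ≃ₐ[k] Ω) (h : CP 𝔓 1 σ) :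
    CP 𝔓 1 σ⁻¹ := by
  rw [congPow_iff] at *
  intro x
  have := h (sm σ⁻¹ x)
  rw [sm_inv, pow_one] at this
  rw [pow_one]
  have h2 := 𝔓.neg_mem this
  rw [neg_sub] at h2
  exact h2

/-- integral powers of inertia elements -/
theorem congPow_zpow (𝔓 : Ideal (integralClosure ℤ Ω)) (σ : Ω ≃ₐ[k] Ω) (h : CP 𝔓 1 σ) (j : ℤ) :
    CP 𝔓 1 (σ ^ j) := by
  cases j with
  | ofNat j =>
      rw [Int.ofNat_eq_natCast, zpow_natCast]
      have := congPow_pow 𝔓 1 σ h j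
      rw [one_pow] at this
      exact this
  | negSucc j =>
      rw [zpow_negSucc]
      apply congPow_inv
      have := congPow_pow 𝔓 1 σ h (j + 1)
      rw [one_pow] at this
      exact this

end

section

variable {F : Type} [Field F] [NumberField F]

/-- elements of `Gal F` as elements of `GalQ F` -/
theorem congPow_e (H : Subgroup (GalQ F)) (e : Gal F ≃* H)
    (he : ∀ (g : Gal F) (x : AlgebraicClosure F), ((e g : H) : GalQ F) x = g x)
    (𝔓 : Ideal (Zb F)) (q : ℕ) (g : Gal F) :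
    CongPow 𝔓 q g ↔ CP 𝔓 q ((e g : H) : GalQ F) := by
  constructor
  · intro h x y hy
    exact h x y (by rw [hy]; exact he g _)
  · intro h x y hy
    exact h x y (by rw [hy]; exact (he g _).symm)

theorem congPow_esymm (H : Subgroup (GalQ F)) (e : Gal F ≃* H)
    (he : ∀ (g : Gal F) (x : AlgebraicClosure F), ((e g : H) : GalQ F) x = g x)
    (𝔓 : Ideal (Zb F)) (q : ℕ) (g : H) (hg : CP 𝔓 q (g : GalQ F)) :
    CongPow 𝔓 q (e.symm g) := by
  rw [congPow_e H e he, MulEquiv.apply_symm_apply]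
  exact hg

end

end MU
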