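import Pool.Agent.Helper3.MU.TCont

/-!
# MU, module TRC: the transfer of a character with cyclotomic inertia
-/

set_option autoImplicit false
set_option maxHeartbeats 800000

open NumberField

namespace MU

section coset

variable {G : Type} [Group G] (H : Subgroup G)

theorem trc_zpow (s : G) (f : G ⧸ H → ℤ) (hf : ∀ y, f (s • y) = f y) (j : ℤ) (y : G ⧸ H) :
    f (s ^ j • y) = f y := by
  let K : Subgroup G :=
    { carrier := {t | ∀ y, f (t • y) = f y}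
      one_mem' := fun y => by rw [one_smul]
      mul_mem' := fun {a b} ha hb y => by rw [mul_smul, ha, hb]
      inv_mem' := fun {a} ha y => by
        have := ha (a⁻¹ • y)
        rw [smul_inv_smul] at this
        exact this.symm }
  have h1 : s ∈ K := hf
  exact K.zpow_mem h1 j y

theorem trc_sum (s : G) [H.FiniteIndex] [Fintype (G ⧸ H)]
    [Fintype (Quotient (MulAction.orbitRel (Subgroup.zpowers s) (G ⧸ H)))]
    (f : G ⧸ H → ℤ) (hf : ∀ y, f (s • y) = f y) :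
    ∑ y, f y = ∑ q : Quotient (MulAction.orbitRel (Subgroup.zpowers s) (G ⧸ H)),
      (Function.minimalPeriod (s • ·) q.out : ℤ) * f q.out := by
  rw [← (Subgroup.quotientEquivSigmaZMod H s).symm.sum_comp]
  rw [Fintype.sum_sigma]
  apply Finset.sum_congr rfl
  intro q _
  have h1 : ∀ j : ZMod (Function.minimalPeriod (s • ·) q.out),
      f ((Subgroup.quotientEquivSigmaZMod H s).symm ⟨q, j⟩) = f q.out := by
    intro j
    rw [Subgroup.quotientEquivSigmaZMod_symm_apply]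
    exact trc_zpow H s f hf _ _
  rw [Finset.sum_congr rfl (fun j _ => h1 j), Finset.sum_const, Finset.card_univ, ZMod.card,
    nsmul_eq_mul]

end coset

/-- a choice function for sets of integers -/
noncomputable def chz (T : Set ℤ) : ℤ := by
  classical
  exact if h : T.Nonempty then h.some else 0

theorem chz_mem (T : Set ℤ) (h : T.Nonempty) : chz T ∈ T := by
  unfold chz
  rw [dif_pos h]
  exact h.some_mem

section

variable {Ω k A : Type} [Field Ω] [Field k] [Algebra k Ω] [CommGroup A]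
  (H : Subgroup (Ω ≃ₐ[k] Ω)) (ψ : H →* A) (χ : (Ω ≃ₐ[k] Ω) →* A) (Bd : Set ℤ)

/-- the admissible exponents at a prime -/
def bset (𝔓 : Ideal (integralClosure ℤ Ω)) : Set ℤ :=
  {b | b ∈ Bd ∧ ∀ s : H, CP 𝔓 1 (s : Ω ≃ₐ[k] Ω) → ψ s * χ s ^ b = 1}

theorem bset_le (𝔓 : Ideal (integralClosure ℤ Ω)) (g : H) :
    bset H ψ χ Bd (tp (g : Ω ≃ₐ[k] Ω) 𝔓) ⊆ bset H ψ χ Bd 𝔓 := by
  intro b hb
  refine ⟨hb.1, ?_⟩
  intro s hs
  have h1 := hb.2 (g⁻¹ * s * g) (by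
    have := congPow_conj 𝔓 1 (s : Ω ≃ₐ[k] Ω) (g : Ω ≃ₐ[k] Ω) hs
    exact this)
  have h2 : ψ (g⁻¹ * s * g) = ψ s := by
    rw [map_mul, map_mul, map_inv]
    rw [mul_right_comm, inv_mul_cancel, one_mul]
  have h3 : χ ((g⁻¹ * s * g : H) : Ω ≃ₐ[k] Ω) = χ s := by
    rw [Subgroup.coe_mul, Subgroup.coe_mul, Subgroup.coe_inv, map_mul, map_mul, map_inv]
    rw [mul_right_comm, inv_mul_cancel, one_mul]
  rw [h2, h3] at h1
  exact h1

theorem bset_eq (𝔓 : Ideal (integralClosure ℤ Ω)) (g : H) :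
    bset H ψ χ Bd (tp (g : Ω ≃ₐ[k] Ω) 𝔓) = bset H ψ χ Bd 𝔓 := by
  apply Set.Subset.antisymm (bset_le H ψ χ Bd 𝔓 g)
  have h1 := bset_le H ψ χ Bd (tp (g : Ω ≃ₐ[k] Ω) 𝔓) g⁻¹
  rw [tp_tp, Subgroup.coe_inv, mul_inv_cancel] at h1
  have h2 : tp (1 : Ω ≃ₐ[k] Ω) 𝔓 = 𝔓 := by
    ext x
    rw [mem_tp, sm_one]
  rw [h2] at h1
  exact h1

/-- the chosen exponent -/
noncomputable def bt (𝔓 : Ideal (integralClosure ℤ Ω)) : ℤ := chz (bset H ψ χ Bd 𝔓)

theorem bt_coset (𝔓 : Ideal (integralClosure ℤ Ω)) (x y : Ω ≃ₐ[k] Ω) (h : x⁻¹ * y ∈ H) :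
    bt H ψ χ Bd (tp y 𝔓) = bt H ψ χ Bd (tp x 𝔓) := by
  have h1 : tp y 𝔓 = tp ((⟨x⁻¹ * y, h⟩ : H) : Ω ≃ₐ[k] Ω) (tp x 𝔓) := by
    rw [tp_tp]
    congr 1
    show y = x * (x⁻¹ * y)
    rw [mul_inv_cancel_left]
  rw [h1]
  unfold bt
  rw [bset_eq]

/-- the exponent as a function on the cosets -/
noncomputable def btc (𝔓 : Ideal (integralClosure ℤ Ω)) (y : (Ω ≃ₐ[k] Ω) ⧸ H) : ℤ :=
  bt H ψ χ Bd (tp y.out 𝔓)

theorem btc_mk (𝔓 : Ideal (integralClosure ℤ Ω)) (x : Ω ≃ₐ[k] Ω) (y : (Ω ≃ₐ[k] Ω) ⧸ H)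
    (h : (x : (Ω ≃ₐ[k] Ω) ⧸ H) = y) : bt H ψ χ Bd (tp x 𝔓) = btc H ψ χ Bd 𝔓 y := by
  unfold btc
  apply bt_coset
  rw [← QuotientGroup.eq, h]
  exact Quotient.out_eq' y

theorem btc_tp (𝔓 : Ideal (integralClosure ℤ Ω)) (g : Ω ≃ₐ[k] Ω) (y : (Ω ≃ₐ[k] Ω) ⧸ H) :
    btc H ψ χ Bd (tp g 𝔓) y = btc H ψ χ Bd 𝔓 (g • y) := by
  show bt H ψ χ Bd (tp y.out (tp g 𝔓)) = _
  rw [tp_tp]
  apply btc_mk
  have h1 : ((g * y.out : Ω ≃ₐ[k] Ω) : (Ω ≃ₐ[k] Ω) ⧸ H) = g • ((y.out : Ω ≃ₐ[k] Ω) : (Ω ≃ₐ[k] Ω) ⧸ H) := rfl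
  rw [h1]
  congr 1
  exact Quotient.out_eq' y

theorem btc_sum_tp [Fintype ((Ω ≃ₐ[k] Ω) ⧸ H)] (𝔓 : Ideal (integralClosure ℤ Ω))
    (g : Ω ≃ₐ[k] Ω) :
    ∑ y, btc H ψ χ Bd (tp g 𝔓) y = ∑ y, btc H ψ χ Bd 𝔓 y := by
  rw [← Equiv.sum_comp (MulAction.toPerm g) (btc H ψ χ Bd 𝔓)]
  apply Finset.sum_congr rfl
  intro y _
  exact btc_tp H ψ χ Bd 𝔓 g y

theorem zpow_sum3 {ι : Type} [Fintype ι] (a : A) (n : ι → ℤ) :
    a ^ (∑ i, n i) = ∏ i, a ^ n i := by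
  classical
  induction (Finset.univ : Finset ι) using Finset.induction_on with
  | empty => simp
  | insert i T hi ih => rw [Finset.sum_insert hi, Finset.prod_insert hi, zpow_add, ih]

/-- the transfer at inertia elements -/
theorem trc_inertia [H.FiniteIndex] [Fintype ((Ω ≃ₐ[k] Ω) ⧸ H)] (𝔓 : Ideal (integralClosure ℤ Ω))
    (hne : ∀ g : Ω ≃ₐ[k] Ω, (bset H ψ χ Bd (tp g 𝔓)).Nonempty) (s : Ω ≃ₐ[k] Ω) (hs : CP 𝔓 1 s) :
    ψ.transfer s * χ s ^ (∑ y, btc H ψ χ Bd 𝔓 y) = 1 := by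
  classical
  have hfin : Finite (Quotient (MulAction.orbitRel (Subgroup.zpowers s) ((Ω ≃ₐ[k] Ω) ⧸ H))) :=
    inferInstance
  have hft : Fintype (Quotient (MulAction.orbitRel (Subgroup.zpowers s) ((Ω ≃ₐ[k] Ω) ⧸ H))) :=
    Fintype.ofFinite _
  have hinv : ∀ y, btc H ψ χ Bd 𝔓 (s • y) = btc H ψ χ Bd 𝔓 y := by
    intro y
    rw [← btc_tp, tp_inertia 𝔓 s hs]
  rw [trc_sum H s _ hinv, transfer_trh, zpow_sum3, ← Finset.prod_mul_distrib]
  apply Finset.prod_eq_one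
  intro q _
  have hb : btc H ψ χ Bd 𝔓 q.out ∈ bset H ψ χ Bd (tp q.out.out 𝔓) := chz_mem _ (hne _)
  have h1 := hb.2 (trh H s q) (by
    have h2 := congPow_conj 𝔓 _ _ q.out.out
      (congPow_pow 𝔓 1 s hs (Function.minimalPeriod (s • ·) q.out))
    rw [one_pow] at h2
    exact h2)
  have h3 : χ ((trh H s q : H) : Ω ≃ₐ[k] Ω) =
      χ s ^ (Function.minimalPeriod (s • ·) q.out : ℤ) := by
    rw [trh_coe, map_mul, map_mul, map_inv, map_pow, mul_right_comm, inv_mul_cancel, one_mul,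
      zpow_natCast]
  rw [h3, ← zpow_mul] at h1
  exact h1

end

section

variable {F : Type} [Field F] [NumberField F]

theorem cyc_esymm (l : ℕ) [Fact l.Prime] (H : Subgroup (GalQ F)) (e : Gal F ≃* H)
    (he : ∀ (g : Gal F) (x : AlgebraicClosure F), ((e g : H) : GalQ F) x = g x) (s : H) :
    cyc l F (e.symm s) = cyc l ℚ (s : GalQ F) := by
  unfold cyc
  rw [MonoidHom.comp_apply, MonoidHom.comp_apply]
  congr 1
  apply RingEquiv.ext
  intro x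
  show (e.symm s) x = (s : GalQ F) x
  have := he (e.symm s) x
  rw [MulEquiv.apply_symm_apply] at this
  exact this.symm

theorem cyc_continuous (l : ℕ) [Fact l.Prime] :
    Continuous (fun s : GalQ F => cyc l ℚ s) :=
  cyclotomicCharacter.continuous l ℚ (AlgebraicClosure F)

/-- the transfer at inertia elements away from `l` -/
theorem trc_away (H : Subgroup (GalQ F)) [H.FiniteIndex] (e : Gal F ≃* H)
    (he : ∀ (g : Gal F) (x : AlgebraicClosure F), ((e g : H) : GalQ F) x = g x)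
    {A : Type} [CommGroup A] (ε : Gal F →* A) (p : ℕ)
    (h1 : ∀ 𝔓 : Ideal (Zb F), Over p 𝔓 → ∀ σ : Gal F, CongPow 𝔓 1 σ → ε σ = 1)
    (𝔓 : Ideal (Zb F)) (h𝔓 : Over p 𝔓) (s : GalQ F) (hs : CP 𝔓 1 s) :
    (ε.comp e.symm.toMonoidHom).transfer s = 1 := by
  classical
  have hfin : Finite (Quotient (MulAction.orbitRel (Subgroup.zpowers s) (GalQ F ⧸ H))) :=
    inferInstance
  have hft : Fintype (Quotient (MulAction.orbitRel (Subgroup.zpowers s) (GalQ F ⧸ H))) :=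
    Fintype.ofFinite _
  rw [transfer_trh]
  apply Finset.prod_eq_one
  intro q _
  show ε (e.symm (trh H s q)) = 1
  apply h1 (tp q.out.out 𝔓) (tp_over _ _ _ h𝔓)
  apply congPow_esymm H e he
  have h2 := congPow_conj 𝔓 _ _ q.out.out
    (congPow_pow 𝔓 1 s hs (Function.minimalPeriod (s • ·) q.out))
  rw [one_pow] at h2
  exact h2

end

theorem st_TRC (hINR : ST_INR) (hCYC : ST_CYC) (hFRE : ST_FRE) : ST_TRC := by
  intro F _ _ H e hIs hfi l hl A _ _ _ _ ε c Bd hε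
  obtain ⟨he, hopen, hec, hesc, hidx⟩ := hIs
  obtain ⟨hεc, hcc, hε1, hε2⟩ := hε
  classical
  have hft : Fintype (GalQ F ⧸ H) := H.fintypeQuotientOfFiniteIndex
  let ψ : H →* A := ε.comp e.symm.toMonoidHom
  let χ : GalQ F →* A := c.comp (cyc l ℚ)
  have hne : ∀ 𝔓 : Ideal (Zb F), Over l 𝔓 → (bset H ψ χ Bd 𝔓).Nonempty := by
    intro 𝔓 h𝔓
    obtain ⟨b, hb, hb2⟩ := hε2 𝔓 h𝔓
    refine ⟨b, hb, ?_⟩
    intro s hs
    have h1 := hb2 (e.symm s) (congPow_esymm H e he 𝔓 1 s hs)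
    rw [cyc_esymm l H e he] at h1
    exact h1
  obtain ⟨Q, hQ, -⟩ := (hFRE F l hl.out).1
  have hB : ∀ 𝔓 : Ideal (Zb F), Over l 𝔓 →
      ∑ y, btc H ψ χ Bd 𝔓 y = ∑ y, btc H ψ χ Bd Q y := by
    intro 𝔓 h𝔓
    obtain ⟨g, hg⟩ := (hFRE F l hl.out).2 𝔓 Q h𝔓 hQ
    have h1 : 𝔓 = tp g Q := by
      ext x
      exact hg x (sm g x) rfl
    rw [h1]
    exact btc_sum_tp H ψ χ Bd Q g
  let B : ℤ := ∑ y, btc H ψ χ Bd Q y
  let η : GalQ F →* A := ψ.transfer * (zpowGroupHom B).comp χ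
  have hη : ∀ s, η s = ψ.transfer s * χ s ^ B := fun s => rfl
  have hψc : Continuous ψ := hεc.comp hesc
  have hηc : Continuous η := by
    have h1 : Continuous (fun s => ψ.transfer s * χ s ^ B) :=
      (transfer_continuous H ψ hopen hψc).mul ((hcc.comp (cyc_continuous l)).zpow B)
    exact h1
  have hcl : IsClosed (η.ker : Set (GalQ F)) := by
    have h1 : (η.ker : Set (GalQ F)) = η ⁻¹' {1} := by
      ext s
      rfl
    rw [h1]
    exact isClosed_singleton.preimage hηc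
  have htop : η.ker = ⊤ := by
    apply hINR F η.ker (MonoidHom.normal_ker η) hcl
    intro p hp 𝔓 h𝔓 σ hσ
    rw [MonoidHom.mem_ker, hη]
    by_cases hpl : p = l
    · subst hpl
      have h1 := trc_inertia H ψ χ Bd 𝔓 (fun g => hne _ (tp_over g 𝔓 _ h𝔓)) σ hσ
      rw [hB 𝔓 h𝔓] at h1
      exact h1
    · have h1 : ψ.transfer σ = 1 := trc_away H e he ε p (hε1 p hp hpl) 𝔓 h𝔓 σ hσ
      have h2 : cyc l ℚ σ = 1 := by
        have h3 := hCYC F ℚ l p hp hpl 𝔓 h𝔓 0 σ (by rw [pow_zero]; exact hσ)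
        apply Units.ext
        rw [h3, pow_zero]
        rfl
      have h3 : χ σ = 1 := by
        show c (cyc l ℚ σ) = 1
        rw [h2, map_one]
      rw [h1, h3, one_zpow, one_mul]
  have hcard : Fintype.card (GalQ F ⧸ H) = Module.finrank ℚ F := by
    rw [← hidx, Subgroup.index_eq_card, Nat.card_eq_fintype_card]
  let E : Fin (Module.finrank ℚ F) ≃ GalQ F ⧸ H := (Fintype.equivFinOfCardEq hcard).symm
  refine ⟨fun i => btc H ψ χ Bd Q (E i), ?_, ?_⟩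
  · intro i
    have h1 : btc H ψ χ Bd Q (E i) ∈ bset H ψ χ Bd (tp (E i).out Q) :=
      chz_mem _ (hne _ (tp_over _ _ _ hQ))
    exact h1.1
  · intro φ
    have h1 : φ ∈ η.ker := by
      rw [htop]
      exact Subgroup.mem_top φ
    rw [MonoidHom.mem_ker, hη] at h1
    have h2 : ∑ i, btc H ψ χ Bd Q (E i) = B := Equiv.sum_comp E (btc H ψ χ Bd Q)
    rw [h2]
    exact h1

end MU
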