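import Pool.Agent.Helper3.MU.TRF

/-!
# MU: continuity of the transfer
-/

set_option autoImplicit false
set_option maxHeartbeats 800000

open Filter Topology

namespace MU

open MulAction Subgroup Subgroup.leftTransversals

section

variable {G : Type} [Group G] [TopologicalSpace G] [IsTopologicalGroup G] (H : Subgroup G)
  {A : Type} [CommGroup A] [TopologicalSpace A] [IsTopologicalGroup A] (ψ : H →* A)

open Classical in
/-- the factor of the transfer at a coset fixed by `s` -/
noncomputable def tcf (a s : G) : A :=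
  if h : a⁻¹ * (s * a) ∈ H then ψ ⟨a⁻¹ * (s * a), h⟩ else 1

theorem tcf_cont (hH : IsOpen (H : Set G)) (hψ : Continuous ψ) (a : G) :
    ContinuousAt (tcf H ψ a) 1 := by
  have hf : Continuous (fun s : G => a⁻¹ * (s * a)) :=
    continuous_const.mul (continuous_id.mul continuous_const)
  have hV : IsOpen {s : G | a⁻¹ * (s * a) ∈ H} := hH.preimage hf
  have h1 : (1 : G) ∈ {s : G | a⁻¹ * (s * a) ∈ H} := by
    show a⁻¹ * (1 * a) ∈ H
    simp
  apply ContinuousOn.continuousAt _ (hV.mem_nhds h1)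
  rw [continuousOn_iff_continuous_domRestrict]
  have h2 : Continuous (fun s : {s : G | a⁻¹ * (s * a) ∈ H} =>
      ψ ⟨a⁻¹ * ((s : G) * a), s.2⟩) := by
    apply hψ.comp
    exact Continuous.subtype_mk (hf.comp continuous_subtype_val) _
  have h3 : (fun s : {s : G | a⁻¹ * (s * a) ∈ H} => tcf H ψ a s) =
      (fun s : {s : G | a⁻¹ * (s * a) ∈ H} => ψ ⟨a⁻¹ * ((s : G) * a), s.2⟩) := by
    funext s
    unfold tcf
    exact dif_pos s.2
  rw [← h3] at h2
  exact h2

theorem transfer_continuous [H.FiniteIndex] (hH : IsOpen (H : Set G)) (hψ : Continuous ψ) :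
    Continuous ψ.transfer := by
  apply continuous_of_continuousAt_one
  letI hft : Fintype (G ⧸ H) := H.fintypeQuotientOfFiniteIndex
  let T : H.LeftTransversal := default
  let α : G ⧸ H → G := fun q => (T.2.leftQuotientEquiv q : G)
  have hα : ∀ q : G ⧸ H, ((α q : G) : G ⧸ H) = q := fun q => T.2.leftQuotientEquiv.symm_apply_apply q
  have h1 : ContinuousAt (fun s : G => ∏ q : G ⧸ H, tcf H ψ (α q) s) 1 :=
    tendsto_finsetProd _ (fun q _ => tcf_cont H ψ hH hψ (α q))
  apply h1.congr
  have hU : ∀ q : G ⧸ H, ∀ᶠ s in 𝓝 (1 : G), (α q)⁻¹ * (s * α q) ∈ H := by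
    intro q
    have hf : Continuous (fun s : G => (α q)⁻¹ * (s * α q)) :=
      continuous_const.mul (continuous_id.mul continuous_const)
    have hV : IsOpen {s : G | (α q)⁻¹ * (s * α q) ∈ H} := hH.preimage hf
    apply hV.mem_nhds
    show (α q)⁻¹ * (1 * α q) ∈ H
    simp
  have hU2 := (eventually_all (p := fun q s => (α q)⁻¹ * (s * α q) ∈ H)).mpr hU
  filter_upwards [hU2] with s hs
  rw [MonoidHom.transfer_def ψ T s]
  refine Finset.prod_congr rfl ?_
  intro q _
  unfold tcf
  rw [dif_pos (hs q)]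
  apply congrArg ψ
  apply Subtype.ext
  show (α q)⁻¹ * (s * α q) = (α q)⁻¹ * ((s • T).2.leftQuotientEquiv q : G)
  rw [smul_apply_eq_smul_apply_inv_smul]
  have hq : s⁻¹ • q = q := by
    rw [inv_smul_eq_iff]
    have h3 : ((α q : G) : G ⧸ H) = ((s * α q : G) : G ⧸ H) := by
      rw [QuotientGroup.eq]
      exact hs q
    calc q = ((α q : G) : G ⧸ H) := (hα q).symm
      _ = ((s * α q : G) : G ⧸ H) := h3
      _ = s • ((α q : G) : G ⧸ H) := rfl
      _ = s • q := congrArg (fun z => s • z) (hα q)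
  rw [hq]
  rfl

end

end MU
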