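import Pool.Agent.Helper3.MU.Base

/-!
# MU, module TRF: the transfer at a Frobenius element
-/

set_option autoImplicit false
set_option maxHeartbeats 800000

open NumberField

namespace MU

/-- the elements of `H` in the formula for the transfer -/
noncomputable def trh {G : Type} [Group G] (H : Subgroup G) (φ : G)
    (q : Quotient (MulAction.orbitRel (Subgroup.zpowers φ) (G ⧸ H))) : H :=
  ⟨q.out.out⁻¹ * φ ^ Function.minimalPeriod (φ • ·) q.out * q.out.out,
    QuotientGroup.out_conj_pow_minimalPeriod_mem H φ q.out⟩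

theorem trh_coe {G : Type} [Group G] (H : Subgroup G) (φ : G)
    (q : Quotient (MulAction.orbitRel (Subgroup.zpowers φ) (G ⧸ H))) :
    ((trh H φ q : H) : G) =
      q.out.out⁻¹ * φ ^ Function.minimalPeriod (φ • ·) q.out * q.out.out := rfl

theorem transfer_trh {G : Type} [Group G] (H : Subgroup G) [H.FiniteIndex] {A : Type}
    [CommGroup A] (ψ : H →* A) (φ : G)
    [Fintype (Quotient (MulAction.orbitRel (Subgroup.zpowers φ) (G ⧸ H)))] :
    ψ.transfer φ = ∏ q : Quotient (MulAction.orbitRel (Subgroup.zpowers φ) (G ⧸ H)),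
      ψ (trh H φ q) :=
  MonoidHom.transfer_eq_prod_quotient_orbitRel_zpowers_quot ψ φ

set_option backward.isDefEq.respectTransparency false in
theorem minPer_pos {G : Type} [Group G] (H : Subgroup G) [H.FiniteIndex] (φ : G) (y : G ⧸ H) :
    1 ≤ Function.minimalPeriod (φ • ·) y := by
  have hft : Fintype (MulAction.orbit (Subgroup.zpowers φ) y) := Fintype.ofFinite _
  rw [MulAction.minimalPeriod_eq_card]
  exact Fintype.card_pos_iff.mpr ⟨⟨y, MulAction.mem_orbit_self y⟩⟩

theorem st_TRF : ST_TRF := by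
  intro F _ _ H e hIs hfi p hp 𝔓 h𝔓 φ hφ
  obtain ⟨he, -, -, -, hidx⟩ := hIs
  classical
  have hfin : Finite (Quotient (MulAction.orbitRel (Subgroup.zpowers φ) (GalQ F ⧸ H))) :=
    inferInstance
  have hft : Fintype (Quotient (MulAction.orbitRel (Subgroup.zpowers φ) (GalQ F ⧸ H))) :=
    Fintype.ofFinite _
  let E := (Fintype.equivFin (Quotient (MulAction.orbitRel (Subgroup.zpowers φ) (GalQ F ⧸ H)))).symm
  refine ⟨Fintype.card (Quotient (MulAction.orbitRel (Subgroup.zpowers φ) (GalQ F ⧸ H))),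
    fun i => e.symm (trh H φ (E i)), fun i => Function.minimalPeriod (φ • ·) (E i).out,
    fun i => tp (E i).out.out 𝔓, ⟨?_, ?_⟩, ?_⟩
  · intro i
    refine ⟨tp_over _ _ _ h𝔓, minPer_pos H φ _, ?_⟩
    apply congPow_esymm H e he
    rw [trh_coe]
    exact congPow_conj 𝔓 _ _ _ (congPow_pow 𝔓 p φ hφ _)
  · rw [← hidx, Subgroup.index_eq_sum_minimalPeriod H φ]
    exact Equiv.sum_comp E (fun q => Function.minimalPeriod (φ • ·) q.out)
  · intro A _ ε
    rw [transfer_trh, ← Equiv.prod_comp E]
    rfl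

end MU
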