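import Pool.Agent.Helper3.MU.TRC

/-!
# MU / MT: the transfer for arbitrary open subgroups
-/

set_option autoImplicit false
set_option maxHeartbeats 800000

open NumberField

namespace MU

/-- TFG: the transfer at a Frobenius element, for an arbitrary subgroup `H` of finite index. -/
theorem st_TFG (F : Type) [Field F] [NumberField F] (H : Subgroup (GalQ F)) [H.FiniteIndex]
    (p : ℕ) (𝔓 : Ideal (Zb F)) (h𝔓 : Over p 𝔓) (φ : GalQ F) (hφ : CongPow 𝔓 p φ) :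
    ∃ (r : ℕ) (x : Fin r → H) (k : Fin r → ℕ) (𝔔 : Fin r → Ideal (Zb F)),
      (∀ i, Over p (𝔔 i) ∧ 1 ≤ k i ∧ CongPow (𝔔 i) (p ^ k i) ((x i : H) : GalQ F)) ∧
      ∑ i, k i = H.index ∧
      ∀ (A : Type) [CommGroup A] (ψ : H →* A), ψ.transfer φ = ∏ i, ψ (x i) := by
  classical
  have hfin : Finite (Quotient (MulAction.orbitRel (Subgroup.zpowers φ) (GalQ F ⧸ H))) :=
    inferInstance
  have hft : Fintype (Quotient (MulAction.orbitRel (Subgroup.zpowers φ) (GalQ F ⧸ H))) :=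
    Fintype.ofFinite _
  let E := (Fintype.equivFin (Quotient (MulAction.orbitRel (Subgroup.zpowers φ) (GalQ F ⧸ H)))).symm
  refine ⟨Fintype.card (Quotient (MulAction.orbitRel (Subgroup.zpowers φ) (GalQ F ⧸ H))),
    fun i => trh H φ (E i), fun i => Function.minimalPeriod (φ • ·) (E i).out,
    fun i => tp (E i).out.out 𝔓, ?_, ?_, ?_⟩
  · intro i
    refine ⟨tp_over _ _ _ h𝔓, minPer_pos H φ _, ?_⟩
    rw [trh_coe]
    exact congPow_conj 𝔓 _ _ _ (congPow_pow 𝔓 p φ hφ _)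
  · rw [Subgroup.index_eq_sum_minimalPeriod H φ]
    exact Equiv.sum_comp E (fun q => Function.minimalPeriod (φ • ·) q.out)
  · intro A _ ψ
    rw [transfer_trh, ← Equiv.prod_comp E]

/-- Frobenius elements preserve their prime. -/
theorem tp_frob {Ω k : Type} [Field Ω] [Field k] [Algebra k Ω]
    (𝔓 : Ideal (integralClosure ℤ Ω)) (h𝔓 : 𝔓.IsPrime) (q : ℕ) (hq : 1 ≤ q) (σ : Ω ≃ₐ[k] Ω)
    (h : CP 𝔓 q σ) : tp σ 𝔓 = 𝔓 := by
  rw [congPow_iff] at h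
  ext x
  rw [mem_tp]
  have h1 := h x
  constructor
  · intro h2
    have h3 := 𝔓.sub_mem h2 h1
    rw [sub_sub_cancel] at h3
    exact h𝔓.mem_of_pow_mem q h3
  · intro h2
    have h3 := 𝔓.add_mem h1 (Ideal.pow_mem_of_mem 𝔓 h2 q hq)
    rw [sub_add_cancel] at h3
    exact h3

theorem tp_one {Ω k : Type} [Field Ω] [Field k] [Algebra k Ω]
    (𝔓 : Ideal (integralClosure ℤ Ω)) : tp (1 : Ω ≃ₐ[k] Ω) 𝔓 = 𝔓 := by
  ext x
  rw [mem_tp, sm_one]

theorem tp_zpow {Ω k : Type} [Field Ω] [Field k] [Algebra k Ω]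
    (𝔓 : Ideal (integralClosure ℤ Ω)) (σ : Ω ≃ₐ[k] Ω) (h : tp σ 𝔓 = 𝔓) (j : ℤ) :
    tp (σ ^ j) 𝔓 = 𝔓 := by
  let K : Subgroup (Ω ≃ₐ[k] Ω) :=
    { carrier := {t | tp t 𝔓 = 𝔓}
      one_mem' := tp_one 𝔓
      mul_mem' := fun {a b} ha hb => by
        show tp (a * b) 𝔓 = 𝔓
        rw [← tp_tp, ha, hb]
      inv_mem' := fun {a} ha => by
        show tp a⁻¹ 𝔓 = 𝔓
        have h1 : tp a⁻¹ (tp a 𝔓) = 𝔓 := by rw [tp_tp, mul_inv_cancel, tp_one]
        rw [ha] at h1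
        exact h1 }
  have h1 : σ ∈ K := h
  exact K.zpow_mem h1 j

theorem tfg_aux {Ω k : Type} [Field Ω] [Field k] [Algebra k Ω]
    (𝔓 : Ideal (integralClosure ℤ Ω)) (a x g : Ω ≃ₐ[k] Ω) (ha : tp a 𝔓 = 𝔓) :
    tp g 𝔓 = tp ((a * x)⁻¹ * g) (tp x 𝔓) := by
  rw [tp_tp, mul_inv_rev]
  have h1 : x * (x⁻¹ * a⁻¹ * g) = a⁻¹ * g := by group
  have h2 : tp a⁻¹ 𝔓 = 𝔓 := by
    have := tp_zpow 𝔓 a ha (-1)
    rw [zpow_neg_one] at this
    exact this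
  rw [h1, ← tp_tp, h2]

/-- TFG with the additional information that every prime over `p` is `H`-conjugate to one of the
primes `𝔔 i`. -/
theorem st_TFG2 (hFRE : ST_FRE) (F : Type) [Field F] [NumberField F] (H : Subgroup (GalQ F))
    [H.FiniteIndex] (p : ℕ) (hp : p.Prime) (𝔓 : Ideal (Zb F)) (h𝔓 : Over p 𝔓) (φ : GalQ F)
    (hφ : CongPow 𝔓 p φ) :
    ∃ (r : ℕ) (x : Fin r → H) (k : Fin r → ℕ) (𝔔 : Fin r → Ideal (Zb F)),
      (∀ i, Over p (𝔔 i) ∧ 1 ≤ k i ∧ CongPow (𝔔 i) (p ^ k i) ((x i : H) : GalQ F)) ∧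
      ∑ i, k i = H.index ∧
      (∀ (A : Type) [CommGroup A] (ψ : H →* A), ψ.transfer φ = ∏ i, ψ (x i)) ∧
      ∀ 𝔓' : Ideal (Zb F), Over p 𝔓' → ∃ (i : Fin r) (g : H), ∀ x y : Zb F,
        (y : AlgebraicClosure F) = (g : GalQ F) (x : AlgebraicClosure F) → (x ∈ 𝔓' ↔ y ∈ 𝔔 i) := by
  classical
  have hfin : Finite (Quotient (MulAction.orbitRel (Subgroup.zpowers φ) (GalQ F ⧸ H))) :=
    inferInstance
  have hft : Fintype (Quotient (MulAction.orbitRel (Subgroup.zpowers φ) (GalQ F ⧸ H))) :=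
    Fintype.ofFinite _
  let E := (Fintype.equivFin (Quotient (MulAction.orbitRel (Subgroup.zpowers φ) (GalQ F ⧸ H)))).symm
  refine ⟨Fintype.card (Quotient (MulAction.orbitRel (Subgroup.zpowers φ) (GalQ F ⧸ H))),
    fun i => trh H φ (E i), fun i => Function.minimalPeriod (φ • ·) (E i).out,
    fun i => tp (E i).out.out 𝔓, ?_, ?_, ?_, ?_⟩
  · intro i
    refine ⟨tp_over _ _ _ h𝔓, minPer_pos H φ _, ?_⟩
    rw [trh_coe]
    exact congPow_conj 𝔓 _ _ _ (congPow_pow 𝔓 p φ hφ _)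
  · rw [Subgroup.index_eq_sum_minimalPeriod H φ]
    exact Equiv.sum_comp E (fun q => Function.minimalPeriod (φ • ·) q.out)
  · intro A _ ψ
    rw [transfer_trh, ← Equiv.prod_comp E]
  · intro 𝔓' h𝔓'
    obtain ⟨g, hg⟩ := (hFRE F p hp).2 𝔓' 𝔓 h𝔓' h𝔓
    have h1 : 𝔓' = tp g 𝔓 := by
      ext x
      exact hg x (sm g x) rfl
    obtain ⟨q, hq⟩ : ∃ q, (Subgroup.quotientEquivSigmaZMod H φ).symm q = ((g : GalQ F) : GalQ F ⧸ H) :=
      ⟨_, Equiv.symm_apply_apply _ _⟩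
    obtain ⟨q, j⟩ := q
    rw [Subgroup.quotientEquivSigmaZMod_symm_apply] at hq
    have h2 : ((φ ^ (j.cast : ℤ) * q.out.out : GalQ F) : GalQ F ⧸ H) = (g : GalQ F ⧸ H) := by
      rw [← hq]
      have h3 : ((φ ^ (j.cast : ℤ) * q.out.out : GalQ F) : GalQ F ⧸ H) =
          φ ^ (j.cast : ℤ) • ((q.out.out : GalQ F) : GalQ F ⧸ H) := rfl
      rw [h3]
      exact congrArg (fun z => φ ^ (j.cast : ℤ) • z) (Quotient.out_eq' q.out)
    have h4 := QuotientGroup.eq.mp h2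
    refine ⟨E.symm q, ⟨_, h4⟩, ?_⟩
    intro x y hy
    have h5 : 𝔓' = tp ((φ ^ (j.cast : ℤ) * q.out.out)⁻¹ * g) (tp q.out.out 𝔓) := by
      have h6 : tp (φ ^ (j.cast : ℤ)) 𝔓 = 𝔓 :=
        tp_zpow 𝔓 φ (tp_frob 𝔓 h𝔓.1 p hp.one_lt.le φ hφ) _
      rw [h1]
      exact tfg_aux 𝔓 _ _ g h6
    have h7 : y = sm ((φ ^ (j.cast : ℤ) * q.out.out)⁻¹ * g) x := Subtype.ext hy
    have h8 : x ∈ 𝔓' ↔ sm ((φ ^ (j.cast : ℤ) * q.out.out)⁻¹ * g) x ∈ tp q.out.out 𝔓 := by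
      rw [h5]
      exact Iff.rfl
    rw [h8, h7]
    show _ ↔ _ ∈ tp (E (E.symm q)).out.out 𝔓
    rw [Equiv.apply_symm_apply]

/-- the transfer at inertia elements, if the character is trivial on inertia -/
theorem trg_away {F : Type} [Field F] [NumberField F] (H : Subgroup (GalQ F)) [H.FiniteIndex]
    {A : Type} [CommGroup A] (ψ : H →* A) (p : ℕ)
    (h1 : ∀ 𝔓 : Ideal (Zb F), Over p 𝔓 → ∀ s : H, CongPow 𝔓 1 (s : GalQ F) → ψ s = 1)
    (𝔓 : Ideal (Zb F)) (h𝔓 : Over p 𝔓) (s : GalQ F) (hs : CP 𝔓 1 s) :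
    ψ.transfer s = 1 := by
  classical
  have hfin : Finite (Quotient (MulAction.orbitRel (Subgroup.zpowers s) (GalQ F ⧸ H))) :=
    inferInstance
  have hft : Fintype (Quotient (MulAction.orbitRel (Subgroup.zpowers s) (GalQ F ⧸ H))) :=
    Fintype.ofFinite _
  rw [transfer_trh]
  apply Finset.prod_eq_one
  intro q _
  apply h1 (tp q.out.out 𝔓) (tp_over _ _ _ h𝔓)
  have h2 := congPow_conj 𝔓 _ _ q.out.out
    (congPow_pow 𝔓 1 s hs (Function.minimalPeriod (s • ·) q.out))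
  rw [one_pow] at h2
  exact h2

/-- TRG: the transfer of a character of an open subgroup `H` of the absolute Galois group of `ℚ`
which is trivial on inertia away from `l` and the power `-b`, `b ∈ Bd`, of the cyclotomic
character on inertia at `l`. -/
theorem st_TRG (hINR : ST_INR) (hCYC : ST_CYC) (hFRE : ST_FRE)
    (F : Type) [Field F] [NumberField F] (H : Subgroup (GalQ F)) [H.FiniteIndex]
    (hopen : IsOpen (H : Set (GalQ F))) (l : ℕ) [hl : Fact l.Prime] (A : Type) [CommGroup A]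
    [TopologicalSpace A] [IsTopologicalGroup A] [T2Space A] (ψ : H →* A) (hψ : Continuous ψ)
    (c : ℤ_[l]ˣ →* A) (hc : Continuous c) (Bd : Set ℤ)
    (h1 : ∀ p : ℕ, p.Prime → p ≠ l → ∀ 𝔓 : Ideal (Zb F), Over p 𝔓 → ∀ s : H,
      CongPow 𝔓 1 (s : GalQ F) → ψ s = 1)
    (h2 : ∀ 𝔓 : Ideal (Zb F), Over l 𝔓 → ∃ b ∈ Bd, ∀ s : H, CongPow 𝔓 1 (s : GalQ F) →
      ψ s * c (cyc l ℚ (s : GalQ F)) ^ b = 1) :
    ∃ b : Fin H.index → ℤ, (∀ i, b i ∈ Bd) ∧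
      ∀ φ : GalQ F, ψ.transfer φ * c (cyc l ℚ φ) ^ (∑ i, b i) = 1 := by
  classical
  have hft : Fintype (GalQ F ⧸ H) := H.fintypeQuotientOfFiniteIndex
  let χ : GalQ F →* A := c.comp (cyc l ℚ)
  have hne : ∀ 𝔓 : Ideal (Zb F), Over l 𝔓 → (bset H ψ χ Bd 𝔓).Nonempty := by
    intro 𝔓 h𝔓
    obtain ⟨b, hb, hb2⟩ := h2 𝔓 h𝔓
    exact ⟨b, hb, fun s hs => hb2 s hs⟩
  obtain ⟨Q, hQ, -⟩ := (hFRE F l hl.out).1
  have hB : ∀ 𝔓 : Ideal (Zb F), Over l 𝔓 →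
      ∑ y, btc H ψ χ Bd 𝔓 y = ∑ y, btc H ψ χ Bd Q y := by
    intro 𝔓 h𝔓
    obtain ⟨g, hg⟩ := (hFRE F l hl.out).2 𝔓 Q h𝔓 hQ
    have h1 : 𝔓 = tp g Q := by
      ext x
      exact hg x (sm g x) rfl
    rw [h1]
    exact btc_sum_tp H ψ χ Bd Q g
  let B : ℤ := ∑ y, btc H ψ χ Bd Q y
  let η : GalQ F →* A := ψ.transfer * (zpowGroupHom B).comp χ
  have hη : ∀ s, η s = ψ.transfer s * χ s ^ B := fun s => rfl
  have hηc : Continuous η := by
    have h1 : Continuous (fun s => ψ.transfer s * χ s ^ B) :=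
      (transfer_continuous H ψ hopen hψ).mul ((hc.comp (cyc_continuous l)).zpow B)
    exact h1
  have hcl : IsClosed (η.ker : Set (GalQ F)) := by
    have h1 : (η.ker : Set (GalQ F)) = η ⁻¹' {1} := by
      ext s
      rfl
    rw [h1]
    exact isClosed_singleton.preimage hηc
  have htop : η.ker = ⊤ := by
    apply hINR F η.ker (MonoidHom.normal_ker η) hcl
    intro p hp 𝔓 h𝔓 σ hσ
    rw [MonoidHom.mem_ker, hη]
    by_cases hpl : p = l
    · subst hpl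
      have h1 := trc_inertia H ψ χ Bd 𝔓 (fun g => hne _ (tp_over g 𝔓 _ h𝔓)) σ hσ
      rw [hB 𝔓 h𝔓] at h1
      exact h1
    · have h1 : ψ.transfer σ = 1 := trg_away H ψ p (h1 p hp hpl) 𝔓 h𝔓 σ hσ
      have h2 : cyc l ℚ σ = 1 := by
        have h3 := hCYC F ℚ l p hp hpl 𝔓 h𝔓 0 σ (by rw [pow_zero]; exact hσ)
        apply Units.ext
        rw [h3, pow_zero]
        rfl
      have h3 : χ σ = 1 := by
        show c (cyc l ℚ σ) = 1
        rw [h2, map_one]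
      rw [h1, h3, one_zpow, one_mul]
  have hcard : Fintype.card (GalQ F ⧸ H) = H.index := by
    rw [Subgroup.index_eq_card, Nat.card_eq_fintype_card]
  let E : Fin H.index ≃ GalQ F ⧸ H := (Fintype.equivFinOfCardEq hcard).symm
  refine ⟨fun i => btc H ψ χ Bd Q (E i), ?_, ?_⟩
  · intro i
    have h1 : btc H ψ χ Bd Q (E i) ∈ bset H ψ χ Bd (tp (E i).out Q) :=
      chz_mem _ (hne _ (tp_over _ _ _ hQ))
    exact h1.1
  · intro φ
    have h1 : φ ∈ η.ker := by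
      rw [htop]
      exact Subgroup.mem_top φ
    rw [MonoidHom.mem_ker, hη] at h1
    have h2 : ∑ i, btc H ψ χ Bd Q (E i) = B := Equiv.sum_comp E (btc H ψ χ Bd Q)
    rw [h2]
    exact h1

end MU
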